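import Pool.Agent.H706R2.Mah.Defs

/-!
# T8. The holomorphic inequality: the limit `ε → 0` of the regularised identity
-/

namespace Pool.Agent.H706R2.Mah

open MeasureTheory Real Set Filter Topology
open scoped RealInnerProductSpace ENNReal

variable {n : ℕ} {ι : Type} [Fintype ι]

lemma T8_gcont {δ C : ℝ} {g : E n → E n} {A : E n → Mat n} (h : Nice δ C g A) : Continuous g :=
  continuous_iff_continuousAt.2 fun x => (h.deriv x).continuousAt

omit [Fintype ι] in
lemma T8_ptcont (a b : ι → ℝ) (l : ι) :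
    Continuous (fun ω : E n × E n => pt a b ω.1 ω.2 l) := by
  unfold pt; fun_prop

lemma T8_Gxcont {δ C : ℝ} {g : E n → E n} {A : E n → Mat n} (h : Nice δ C g A) (a b : ι → ℝ) :
    Continuous (fun ω : E n × E n => Gx g a b ω.1 ω.2) := by
  unfold Gx
  refine continuous_finsetSum _ fun l _ => ?_
  exact ((T8_gcont h).comp (T8_ptcont a b l)).const_smul (a l)

lemma T8_Gycont {δ C : ℝ} {g : E n → E n} {A : E n → Mat n} (h : Nice δ C g A) (a b : ι → ℝ) :
    Continuous (fun ω : E n × E n => Gy g a b ω.1 ω.2) := by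
  unfold Gy
  refine continuous_finsetSum _ fun l _ => ?_
  exact ((T8_gcont h).comp (T8_ptcont a b l)).const_smul (b l)

lemma T8_Wcont {δ C : ℝ} {g : E n → E n} {A : E n → Mat n} (h : Nice δ C g A) (a b : ι → ℝ) :
    Continuous (fun ω : E n × E n => Wf g a b ω.1 ω.2) := by
  unfold Wf
  refine continuous_finsetSum _ fun l _ => ?_
  exact (T8_ptcont a b l).inner ((T8_gcont h).comp (T8_ptcont a b l))

lemma T8_detcont {δ C : ℝ} {g : E n → E n} {A : E n → Mat n} (h : Nice δ C g A) (a b : ι → ℝ) :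
    Continuous (fun ω : E n × E n => detR A a b ω.1 ω.2) := by
  unfold detR
  refine Continuous.matrix_det ?_
  refine continuous_finsetSum _ fun l _ => ?_
  exact (h.cont.comp (T8_ptcont a b l)).const_smul (a l ^ 2 + b l ^ 2)

lemma T8_psd {δ C : ℝ} {g : E n → E n} {A : E n → Mat n} (h : Nice δ C g A) (x : E n) :
    (A x).PosSemidef := by
  refine Matrix.PosSemidef.of_dotProduct_mulVec_nonneg (h.herm x) fun v => ?_
  have h1 := h.low x (WithLp.toLp 2 v)
  rw [Matrix.toEuclideanCLM_toLp, EuclideanSpace.inner_toLp_toLp] at h1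
  have h2 : 0 ≤ δ * ‖(WithLp.toLp 2 v : E n)‖ ^ 2 := mul_nonneg h.δpos.le (sq_nonneg _)
  have h3 := h2.trans h1
  rwa [dotProduct_comm] at h3

lemma T8_detR_nonneg {δ C : ℝ} {g : E n → E n} {A : E n → Mat n} (h : Nice δ C g A) (a b : ι → ℝ)
    (x y : E n) : 0 ≤ detR A a b x y := by
  unfold detR
  apply Matrix.PosSemidef.det_nonneg
  apply Matrix.posSemidef_sum
  intro l _
  exact (T8_psd h _).smul (by positivity)

lemma T8_detR_le {δ C : ℝ} {g : E n → E n} {A : E n → Mat n} (h : Nice δ C g A) (a b : ι → ℝ) :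
    ∃ D : ℝ, 0 ≤ D ∧ ∀ x y : E n, detR A a b x y ≤ D := by
  refine ⟨(n.factorial : ℝ) * ((∑ l, (a l ^ 2 + b l ^ 2)) * C) ^ n, ?_, fun x y => ?_⟩
  · have : 0 ≤ (∑ l, (a l ^ 2 + b l ^ 2)) * C :=
      mul_nonneg (Finset.sum_nonneg fun l _ => by positivity) h.Cpos.le
    positivity
  · have h1 := Matrix.det_le (A := ∑ l, (a l ^ 2 + b l ^ 2) • A (pt a b x y l))
      (abv := AbsoluteValue.abs) (x := (∑ l, (a l ^ 2 + b l ^ 2)) * C) (by
        intro i j
        rw [AbsoluteValue.abs_apply, Matrix.sum_apply, Finset.sum_mul]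
        refine (Finset.abs_sum_le_sum_abs _ _).trans (Finset.sum_le_sum fun l _ => ?_)
        rw [Matrix.smul_apply, smul_eq_mul, abs_mul, abs_of_nonneg (by positivity)]
        exact mul_le_mul_of_nonneg_left (h.entry _ _ _) (by positivity))
    rw [Fintype.card_fin, nsmul_eq_mul, AbsoluteValue.abs_apply] at h1
    exact (le_abs_self _).trans h1

lemma T8_re (ε : ℝ) (g : E n → E n) (a b : ι → ℝ) (x y : E n)
    (hW : Wf g a b x y = ⟪x, Gx g a b x y⟫ + ⟪y, Gy g a b x y⟫) :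
    (phase ε g a b ((π / 2 : ℝ) : ℂ) x y).re =
      -(ε * (⟪Gx g a b x y, Gy g a b x y⟫ - ⟪x, y⟫)) - Wf g a b x y := by
  rw [hW]
  unfold phase
  have h1 : Complex.exp (Complex.I * ((π / 2 : ℝ) : ℂ)) = Complex.I := by
    rw [mul_comm]; push_cast
    exact Complex.exp_pi_div_two_mul_I
  have h2 : Complex.exp (-(Complex.I * ((π / 2 : ℝ) : ℂ))) = -Complex.I := by
    rw [Complex.exp_neg, h1, Complex.inv_I]
  rw [h1, h2]
  simp only [Complex.add_re, Complex.mul_re, Complex.neg_re, Complex.neg_im, Complex.I_re,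
    Complex.I_im, Complex.ofReal_re, Complex.ofReal_im, Complex.add_im, Complex.mul_im,
    Complex.sub_re, Complex.sub_im, Complex.div_ofNat_re, Complex.div_ofNat_im, Complex.re_ofNat,
    Complex.im_ofNat]
  ring

lemma T8_detf (A : E n → Mat n) (a b : ι → ℝ) (x y : E n) :
    detf A a b ((π / 2 : ℝ) : ℂ) x y = ((detR A a b x y : ℝ) : ℂ) := by
  unfold detf detR
  have h1 : Complex.cos ((π / 2 : ℝ) : ℂ) = 0 := by
    rw [← Complex.ofReal_cos, Real.cos_pi_div_two, Complex.ofReal_zero]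
  rw [h1]
  have h2 := RingHom.map_det (Complex.ofRealHom) (∑ l, (a l ^ 2 + b l ^ 2) • A (pt a b x y l))
  change ((∑ l, (a l ^ 2 + b l ^ 2) • A (pt a b x y l)).det : ℂ) = _ at h2
  rw [h2]
  congr 1
  ext i j
  simp [Matrix.sum_apply, Matrix.smul_apply]

/-- the limit argument, from the conclusions of T6a and T7 -/
theorem T8_core {δ C : ℝ} {g : E n → E n} {A : E n → Mat n} (h : Nice δ C g A)
    {a b : ι → ℝ}
    (h6 : ∃ c > 0, ∃ K > 0, ∀ x y : E n,
      |⟪Gx g a b x y, Gy g a b x y⟫ - ⟪x, y⟫| ≤ K * (1 + ‖x‖ ^ 2 + ‖y‖ ^ 2) ∧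
      c * (1 + ‖x‖ ^ 2 + ‖y‖ ^ 2) - K ≤ ⟪x, Gx g a b x y⟫ + ⟪y, Gy g a b x y⟫ ∧
      Wf g a b x y = ⟪x, Gx g a b x y⟫ + ⟪y, Gy g a b x y⟫)
    (h7 : ∃ ε₀ > 0, ∀ ε, 0 < ε → ε ≤ ε₀ →
      ∫ ω : E n × E n, Complex.exp (phase ε g a b ((π / 2 : ℝ) : ℂ) ω.1 ω.2) *
        detf A a b ((π / 2 : ℝ) : ℂ) ω.1 ω.2 = (((2 * π) ^ n / (√(1 + ε ^ 2)) ^ n : ℝ) : ℂ)) :
    ENNReal.ofReal ((2 * π) ^ n) ≤
      ∫⁻ ω : E n × E n, ENNReal.ofReal (Real.exp (-(Wf g a b ω.1 ω.2)) * detR A a b ω.1 ω.2) := by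
  obtain ⟨c, hc, K, hK, h6⟩ := h6
  obtain ⟨ε₀, hε₀, h7⟩ := h7
  obtain ⟨D, hD, hdet⟩ := T8_detR_le h a b
  -- the sequence of parameters
  set ε₁ := min ε₀ (c / (2 * K)) with hε₁
  have hε₁0 : 0 < ε₁ := lt_min hε₀ (by positivity)
  set e : ℕ → ℝ := fun k => ε₁ / (k + 1) with he
  have he0 : ∀ k, 0 < e k := fun k => by simp only [he]; positivity
  have he1 : ∀ k, e k ≤ ε₁ := fun k => by
    simp only [he]
    rw [div_le_iff₀ (by positivity)]
    have : (0 : ℝ) ≤ k := Nat.cast_nonneg k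
    nlinarith
  have helim : Tendsto e atTop (𝓝 0) := by
    have h1 := (tendsto_one_div_add_atTop_nhds_zero_nat (𝕜 := ℝ)).const_mul ε₁
    rw [mul_zero] at h1
    refine h1.congr fun k => ?_
    simp only [he]; ring
  set s : E n × E n → ℝ := fun ω => ⟪Gx g a b ω.1 ω.2, Gy g a b ω.1 ω.2⟫ - ⟪ω.1, ω.2⟫ with hs
  have hscont : Continuous s := by
    simp only [hs]
    exact ((T8_Gxcont h a b).inner (T8_Gycont h a b)).sub (continuous_fst.inner continuous_snd)
  -- lower bounds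
  have hlow : ∀ k, ENNReal.ofReal ((2 * π) ^ n / (√(1 + e k ^ 2)) ^ n) ≤
      ∫⁻ ω : E n × E n, ENNReal.ofReal
        (Real.exp (-(e k * s ω) - Wf g a b ω.1 ω.2) * detR A a b ω.1 ω.2) := by
    intro k
    have h1 := h7 (e k) (he0 k) ((he1 k).trans (min_le_left _ _))
    have h2 := enorm_integral_le_lintegral_enorm (μ := (volume : Measure (E n × E n)))
      (fun ω : E n × E n => Complex.exp (phase (e k) g a b ((π / 2 : ℝ) : ℂ) ω.1 ω.2) *
        detf A a b ((π / 2 : ℝ) : ℂ) ω.1 ω.2)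
    rw [h1] at h2
    have h3 : ‖(((2 * π) ^ n / (√(1 + e k ^ 2)) ^ n : ℝ) : ℂ)‖ₑ =
        ENNReal.ofReal ((2 * π) ^ n / (√(1 + e k ^ 2)) ^ n) := by
      rw [← ofReal_norm, Complex.norm_real, Real.norm_of_nonneg (by positivity)]
    rw [h3] at h2
    refine h2.trans (le_of_eq (lintegral_congr fun ω => ?_))
    rw [← ofReal_norm, norm_mul, Complex.norm_exp, T8_detf, Complex.norm_real,
      Real.norm_of_nonneg (T8_detR_nonneg h a b _ _), T8_re _ _ _ _ _ _ (h6 ω.1 ω.2).2.2]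
  -- upper limit
  have hdom : Tendsto (fun k => ∫⁻ ω : E n × E n, ENNReal.ofReal
        (Real.exp (-(e k * s ω) - Wf g a b ω.1 ω.2) * detR A a b ω.1 ω.2)) atTop
      (𝓝 (∫⁻ ω : E n × E n, ENNReal.ofReal
        (Real.exp (-(Wf g a b ω.1 ω.2)) * detR A a b ω.1 ω.2))) := by
    refine tendsto_lintegral_of_dominated_convergence
      (fun ω : E n × E n => ENNReal.ofReal (Real.exp K * D *
        (Real.exp (-(c / 2) * ‖ω.1‖ ^ 2) * Real.exp (-(c / 2) * ‖ω.2‖ ^ 2)))) ?_ ?_ ?_ ?_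
    · intro k
      apply Measurable.ennreal_ofReal
      apply Continuous.measurable
      exact (Real.continuous_exp.comp
        ((hscont.const_mul (e k)).neg.sub (T8_Wcont h a b))).mul (T8_detcont h a b)
    · intro k
      refine Eventually.of_forall fun ω => ?_
      apply ENNReal.ofReal_le_ofReal
      obtain ⟨h61, h62, h63⟩ := h6 ω.1 ω.2
      have hR : (0 : ℝ) ≤ 1 + ‖ω.1‖ ^ 2 + ‖ω.2‖ ^ 2 := by positivity
      have h8 : -(e k * s ω) ≤ c / 2 * (1 + ‖ω.1‖ ^ 2 + ‖ω.2‖ ^ 2) := by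
        have h9 : e k * K ≤ c / 2 := by
          have := (he1 k).trans (min_le_right ε₀ (c / (2 * K)))
          rw [le_div_iff₀ (by positivity)] at this
          linarith
        calc -(e k * s ω) ≤ |e k * s ω| := neg_le_abs _
          _ = e k * |s ω| := by rw [abs_mul, abs_of_pos (he0 k)]
          _ ≤ e k * (K * (1 + ‖ω.1‖ ^ 2 + ‖ω.2‖ ^ 2)) :=
            mul_le_mul_of_nonneg_left h61 (he0 k).le
          _ = (e k * K) * (1 + ‖ω.1‖ ^ 2 + ‖ω.2‖ ^ 2) := by ring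
          _ ≤ _ := mul_le_mul_of_nonneg_right h9 hR
      have h10 : -(e k * s ω) - Wf g a b ω.1 ω.2 ≤
          K + (-(c / 2) * ‖ω.1‖ ^ 2 + -(c / 2) * ‖ω.2‖ ^ 2) := by
        rw [h63]
        nlinarith
      calc Real.exp (-(e k * s ω) - Wf g a b ω.1 ω.2) * detR A a b ω.1 ω.2
          ≤ Real.exp (K + (-(c / 2) * ‖ω.1‖ ^ 2 + -(c / 2) * ‖ω.2‖ ^ 2)) * D :=
            mul_le_mul (Real.exp_le_exp.2 h10) (hdet _ _) (T8_detR_nonneg h a b _ _)
              (Real.exp_pos _).le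
        _ = _ := by rw [Real.exp_add, Real.exp_add]; ring
    · have h1 : ∀ v : E n, ‖Complex.exp (-((c / 2 : ℝ) : ℂ) * ‖v‖ ^ 2 +
          0 * ((⟪(0 : E n), v⟫ : ℝ) : ℂ))‖ = Real.exp (-(c / 2) * ‖v‖ ^ 2) := by
        intro v
        rw [Complex.norm_exp]
        congr 1
        rw [zero_mul, add_zero]
        have : (-((c / 2 : ℝ) : ℂ) * (‖v‖ : ℂ) ^ 2) = ((-(c / 2) * ‖v‖ ^ 2 : ℝ) : ℂ) := by
          push_cast; ring
        rw [this, Complex.ofReal_re]
      have h2 : Integrable (fun v : E n => Real.exp (-(c / 2) * ‖v‖ ^ 2)) := by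
        have h3 := (GaussianFourier.integrable_cexp_neg_mul_sq_norm_add
          (b := ((c / 2 : ℝ) : ℂ)) (V := E n) (by rw [Complex.ofReal_re]; positivity) 0 0).norm
        refine h3.congr (Eventually.of_forall fun v => ?_)
        exact h1 v
      have h3 := (h2.mul_prod h2).const_mul (Real.exp K * D)
      exact h3.lintegral_lt_top.ne
    · refine Eventually.of_forall fun ω => ?_
      apply ENNReal.tendsto_ofReal
      refine Tendsto.mul_const _ ?_
      refine (Real.continuous_exp.tendsto _).comp ?_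
      have h1 : Tendsto (fun k => -(e k * s ω) - Wf g a b ω.1 ω.2) atTop
          (𝓝 (-(0 * s ω) - Wf g a b ω.1 ω.2)) :=
        ((helim.mul_const _).neg).sub_const _
      simpa using h1
  have hleft : Tendsto (fun k => ENNReal.ofReal ((2 * π) ^ n / (√(1 + e k ^ 2)) ^ n)) atTop
      (𝓝 (ENNReal.ofReal ((2 * π) ^ n))) := by
    apply ENNReal.tendsto_ofReal
    have h1 : Tendsto (fun k => (2 * π) ^ n / (√(1 + e k ^ 2)) ^ n) atTop
        (𝓝 ((2 * π) ^ n / (√(1 + 0 ^ 2)) ^ n)) := by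
      refine Tendsto.div tendsto_const_nhds ?_ (by positivity)
      exact ((Real.continuous_sqrt.tendsto _).comp ((helim.pow 2).const_add 1)).pow n
    simpa using h1
  exact le_of_tendsto_of_tendsto' hleft hdom hlow

end Pool.Agent.H706R2.Mah
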